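import Pool.Agent.U180.DP.Stm

/-!
# Project DP, package POW: windows behind the powers of `b`
-/

set_option autoImplicit false

open MeasureTheory ProbabilityTheory Filter Topology

namespace Pool.Agent.U333.DP

open Pool.Agent.U180.DP

lemma void_anti {Ω : Type} (A : ℝ) (U : ℕ → Ω → ℝ) (x : ℝ) {y y' : ℝ} (h : y ≤ y') :
    void A U x y' ⊆ void A U x y := by
  intro ω hω p hp hc
  exact hω p hp ⟨hc.1, hc.2.trans (by linarith)⟩

lemma logb_pos {b : ℕ} (hb : 2 ≤ b) : 0 < Real.log b :=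
  Real.log_pos (by exact_mod_cast hb)

lemma x_tendsto {b : ℕ} (hb : 2 ≤ b) : Tendsto (fun n : ℕ => (b : ℝ) ^ n) atTop atTop :=
  tendsto_pow_atTop_atTop_of_one_lt (by exact_mod_cast hb)

lemma y_pos {c : ℝ} (hc : 0 < c) : ∀ᶠ n : ℕ in atTop, 0 < c * (n * Real.log n) := by
  filter_upwards [eventually_ge_atTop 2] with n hn
  have h1 : (1 : ℝ) < n := by exact_mod_cast hn
  have := Real.log_pos h1
  positivity

lemma y_le {c L : ℝ} (hc : 0 < c) (hL : 0 < L) :
    ∀ᶠ n : ℕ in atTop, c * (n * Real.log n) ≤ ((n : ℝ) * L) ^ 2 := by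
  have h := Real.isLittleO_log_id_atTop.def (c := L ^ 2 / c) (by positivity)
  have h' := tendsto_natCast_atTop_atTop (R := ℝ) |>.eventually h
  filter_upwards [h', eventually_ge_atTop 1] with n hn hn1
  have h1 : (1 : ℝ) ≤ n := by exact_mod_cast hn1
  simp only [id, Real.norm_eq_abs] at hn
  rw [abs_of_nonneg (Real.log_nonneg h1), abs_of_nonneg (by linarith)] at hn
  calc c * (n * Real.log n) ≤ c * (n * (L ^ 2 / c * n)) := by gcongr
    _ = ((n : ℝ) * L) ^ 2 := by field_simp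

lemma y_le_log {b : ℕ} (hb : 2 ≤ b) {c : ℝ} (hc : 0 < c) :
    ∀ᶠ n : ℕ in atTop, c * (n * Real.log n) ≤ Real.log ((b : ℝ) ^ n) ^ (2 : ℝ) := by
  filter_upwards [y_le hc (logb_pos hb)] with n hn
  rw [Real.log_pow]
  have : ((n : ℝ) * Real.log b) ^ (2 : ℝ) = ((n : ℝ) * Real.log b) ^ 2 := by
    exact_mod_cast Real.rpow_natCast _ 2
  rw [this]
  exact hn

lemma y_gap {b : ℕ} (hb : 2 ≤ b) {c : ℝ} (hc : 0 < c) :
    ∀ᶠ n : ℕ in atTop, (b : ℝ) ^ n + c * (n * Real.log n) ≤ (b : ℝ) ^ (n + 1) := by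
  have hb1 : (1 : ℝ) < b := by exact_mod_cast hb
  have hb2 : (2 : ℝ) ≤ b := by exact_mod_cast hb
  have h1 := tendsto_pow_const_div_const_pow_of_one_lt 2 hb1
  have h2 : ∀ᶠ n : ℕ in atTop, (n : ℝ) ^ 2 / (b : ℝ) ^ n < 1 :=
    h1.eventually (gt_mem_nhds one_pos)
  filter_upwards [y_le hc one_pos, h2] with n hn hn2
  have hp : (0 : ℝ) < (b : ℝ) ^ n := by positivity
  rw [div_lt_one hp] at hn2
  rw [mul_one] at hn
  rw [pow_succ]
  nlinarith

lemma term_eq {b : ℕ} (hb : 2 ≤ b) (κ c : ℝ) {n : ℕ} (hn : 1 ≤ n) :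
    Real.exp (-(κ * (c * (n * Real.log n)) / Real.log ((b : ℝ) ^ n))) =
      (n : ℝ) ^ (-(κ * c / Real.log b)) := by
  have hL := (logb_pos hb).ne'
  have hn0 : (0 : ℝ) < n := by exact_mod_cast hn
  rw [Real.log_pow, Real.rpow_def_of_pos hn0]
  congr 1
  field_simp

lemma conv (h1 : S_CONV) {Ω : Type} [MeasurableSpace Ω] (P : Measure Ω) (A : ℝ) (U : ℕ → Ω → ℝ)
    (hU : IsUnif P U) (hA : 0 < A) {b : ℕ} (hb : 2 ≤ b) {c : ℝ} (hc : Real.log b < c) :
    ∀ᵐ ω ∂P, ∀ᶠ n : ℕ in atTop, ω ∉ void A U ((b : ℝ) ^ n) (c * (n * Real.log n)) := by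
  have hL := logb_pos hb
  have hc0 : 0 < c := hL.trans hc
  -- `ε` with `(1 - ε) c / L > 1`
  obtain ⟨ε, hε, hε1⟩ : ∃ ε : ℝ, 0 < ε ∧ 1 < (1 - ε) * c / Real.log b := by
    refine ⟨(c - Real.log b) / (2 * c), by apply div_pos <;> linarith, ?_⟩
    rw [lt_div_iff₀ hL]
    have : (1 - (c - Real.log b) / (2 * c)) * c = (c + Real.log b) / 2 := by
      field_simp
      ring
    rw [this]
    linarith
  refine h1 Ω P A 2 ε U hU hA (by norm_num) hε (fun n : ℕ => (b : ℝ) ^ n)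
    (fun n : ℕ => c * (n * Real.log n)) (x_tendsto hb) ?_ ?_
  · filter_upwards [y_pos hc0, y_le_log hb hc0] with n a1 a2
    exact ⟨a1, a2⟩
  · rw [← summable_nat_add_iff 1]
    have h2 : Summable (fun n : ℕ => ((n + 1 : ℕ) : ℝ) ^ (-((1 - ε) * c / Real.log b))) :=
      (summable_nat_add_iff 1).mpr (Real.summable_nat_rpow.mpr (by linarith))
    refine h2.congr ?_
    intro n
    exact (term_eq hb (1 - ε) c (Nat.le_add_left 1 n)).symm

lemma dive (h2 : S_DIV) {Ω : Type} [MeasurableSpace Ω] (P : Measure Ω) (A : ℝ) (U : ℕ → Ω → ℝ)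
    (hU : IsUnif P U) (hA : 0 < A) {b : ℕ} (hb : 2 ≤ b) {c : ℝ} (hc0 : 0 < c)
    (hc : c < Real.log b) :
    ∀ᵐ ω ∂P, ∃ᶠ n : ℕ in atTop, ω ∈ void A U ((b : ℝ) ^ n) (c * (n * Real.log n)) := by
  have hL := logb_pos hb
  obtain ⟨ε, hε, hε1⟩ : ∃ ε : ℝ, 0 < ε ∧ (1 + ε) * c / Real.log b ≤ 1 := by
    refine ⟨(Real.log b - c) / c, by apply div_pos <;> linarith, ?_⟩
    rw [div_le_one hL]
    have : (1 + (Real.log b - c) / c) * c = Real.log b := by
      field_simp
      ring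
    rw [this]
  refine h2 Ω P A 2 ε U hU hA (by norm_num) hε (fun n : ℕ => (b : ℝ) ^ n)
    (fun n : ℕ => c * (n * Real.log n)) (x_tendsto hb) ?_ ?_
  · filter_upwards [y_pos hc0, y_le_log hb hc0, y_gap hb hc0] with n a1 a2 a3
    exact ⟨a1, a2, a3⟩
  · intro hs
    have h3 := (summable_nat_add_iff 1).mpr hs
    have h4 : Summable (fun n : ℕ => ((n + 1 : ℕ) : ℝ) ^ (-((1 + ε) * c / Real.log b))) :=
      h3.congr fun n => term_eq hb (1 + ε) c (Nat.le_add_left 1 n)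
    have h5 := Real.summable_nat_rpow.mp ((summable_nat_add_iff 1).mp h4)
    linarith

theorem t_POW (h1 : S_CONV) (h2 : S_DIV) : S_POW := by
  intro Ω _ P A U hU hA
  rw [ae_all_iff]
  intro b
  by_cases hb : 2 ≤ b
  · have hL := logb_pos hb
    have e1 : ∀ᵐ ω ∂P, ∀ k : ℕ, ∀ᶠ n : ℕ in atTop,
        ω ∉ void A U ((b : ℝ) ^ n) ((Real.log b + 1 / ((k : ℝ) + 1)) * (n * Real.log n)) := by
      rw [ae_all_iff]
      intro k
      have hk : (0 : ℝ) < 1 / ((k : ℝ) + 1) := by positivity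
      exact conv h1 P A U hU hA hb (by linarith)
    have e2 : ∀ᵐ ω ∂P, ∀ k : ℕ, ∃ᶠ n : ℕ in atTop,
        ω ∈ void A U ((b : ℝ) ^ n)
          ((Real.log b - Real.log b * (1 / ((k : ℝ) + 2))) * (n * Real.log n)) := by
      rw [ae_all_iff]
      intro k
      have hk : (0 : ℝ) < 1 / ((k : ℝ) + 2) := by positivity
      have hk2 : 1 / ((k : ℝ) + 2) < 1 := by
        rw [div_lt_one (by positivity)]
        have : (0 : ℝ) ≤ k := Nat.cast_nonneg k
        linarith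
      exact dive h2 P A U hU hA hb (by nlinarith) (by nlinarith)
    filter_upwards [e1, e2] with ω a1 a2 _
    refine ⟨?_, ?_⟩
    · intro c hc
      obtain ⟨k, hk⟩ := exists_nat_one_div_lt (sub_pos.mpr hc)
      filter_upwards [a1 k, eventually_ge_atTop 1] with n hn hn1 hmem
      apply hn
      refine void_anti A U _ ?_ hmem
      have h3 : (1 : ℝ) ≤ n := by exact_mod_cast hn1
      have h4 : 0 ≤ (n : ℝ) * Real.log n := mul_nonneg (by linarith) (Real.log_nonneg h3)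
      apply mul_le_mul_of_nonneg_right _ h4
      linarith
    · intro c hc
      have hpos : 0 < (Real.log b - c) / Real.log b := div_pos (by linarith) hL
      obtain ⟨k, hk⟩ := exists_nat_one_div_lt hpos
      have hk' : Real.log b * (1 / ((k : ℝ) + 2)) ≤ Real.log b - c := by
        have h5 : 1 / ((k : ℝ) + 2) ≤ 1 / ((k : ℝ) + 1) := by
          apply one_div_le_one_div_of_le <;> [positivity; linarith]
        have h6 : 1 / ((k : ℝ) + 2) ≤ (Real.log b - c) / Real.log b := h5.trans hk.le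
        rw [le_div_iff₀ hL] at h6
        linarith
      have h7 := (a2 k).and_eventually (eventually_ge_atTop 1)
      refine h7.mono ?_
      rintro n ⟨hn, hn1⟩
      refine void_anti A U _ ?_ hn
      have h3 : (1 : ℝ) ≤ n := by exact_mod_cast hn1
      have h4 : 0 ≤ (n : ℝ) * Real.log n := mul_nonneg (by linarith) (Real.log_nonneg h3)
      apply mul_le_mul_of_nonneg_right _ h4
      linarith
  · exact Eventually.of_forall fun ω h => absurd h hb

end Pool.Agent.U333.DP
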